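import Mathlib
import Pool.Agent.U6.VE.Stm

/-!
Project VE, package WT: weighted patterns of randomly perturbed integers.
-/

set_option autoImplicit false

namespace Pool.Agent.U103.VE

open MeasureTheory ProbabilityTheory Pool.Agent.U6.VE
open scoped BigOperators ENNReal NNReal Pointwise

lemma norm_ee (x : ℝ) : ‖ee x‖ = 1 := by
  unfold ee
  exact Complex.norm_exp_ofReal_mul_I _

lemma ee_zero : ee 0 = 1 := by
  unfold ee
  simp

lemma ee_add (x y : ℝ) : ee (x + y) = ee x * ee y := by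
  unfold ee
  rw [← Complex.exp_add]
  congr 1
  push_cast
  ring

lemma ee_sum {ι : Type*} (s : Finset ι) (f : ι → ℝ) : ee (∑ i ∈ s, f i) = ∏ i ∈ s, ee (f i) := by
  classical
  induction s using Finset.induction_on with
  | empty => rw [Finset.sum_empty, Finset.prod_empty, ee_zero]
  | insert a s ha ih => rw [Finset.sum_insert ha, Finset.prod_insert ha, ee_add, ih]

lemma continuous_ee : Continuous ee := by
  unfold ee
  fun_prop

lemma continuous_im {k : ℕ} {D : ℝ≥0} {ν : ℕ → Measure ℝ} (hν : Law D ν) (n : ℕ) :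
    Continuous (fun α : Fin k → ℝ => im ν n α) := by
  have := hν.prob n
  unfold im
  refine continuous_of_dominated (bound := fun _ => 1) ?_ ?_ ?_ ?_
  · intro α
    exact (continuous_ee.comp (by unfold ph; fun_prop)).aestronglyMeasurable
  · intro α
    exact Filter.Eventually.of_forall fun t => (norm_ee _).le
  · exact integrable_const _
  · exact Filter.Eventually.of_forall fun t => continuous_ee.comp (by unfold ph; fun_prop)

lemma continuous_IM {k : ℕ} {D : ℝ≥0} {ν : ℕ → Measure ℝ} (hν : Law D ν) (N : ℕ) :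
    Continuous (fun α : Fin k → ℝ => IM ν N α) := by
  unfold IM
  exact continuous_finset_sum _ fun n _ => continuous_im hν n

lemma pi_int {k r : ℕ} {D : ℝ≥0} {ν : ℕ → Measure ℝ} (hν : Law D ν) (c : Fin r → ℤ)
    (n : Fin r → ℕ) (α : Fin k → ℝ) :
    ∫ t : Fin r → ℝ, ee (∑ j : Fin k, α j * ∑ i, (c i : ℝ) * ((n i : ℝ) + t i) ^ (j.val + 1))
      ∂(Measure.pi fun i => ν (n i)) = ∏ i, im ν (n i) (fun j => (c i : ℝ) * α j) := by
  have hp := hν.prob
  have h1 : ∀ t : Fin r → ℝ,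
      ee (∑ j : Fin k, α j * ∑ i, (c i : ℝ) * ((n i : ℝ) + t i) ^ (j.val + 1)) =
      ∏ i, ee (ph (fun j => (c i : ℝ) * α j) ((n i : ℝ) + t i)) := by
    intro t
    rw [← ee_sum]
    congr 1
    unfold ph
    simp only [Finset.mul_sum]
    rw [Finset.sum_comm]
    refine Finset.sum_congr rfl fun i _ => Finset.sum_congr rfl fun j _ => ?_
    ring
  simp only [h1]
  rw [integral_fintype_prod_eq_prod (fun i (t : ℝ) => ee (ph (fun j => (c i : ℝ) * α j)
    ((n i : ℝ) + t)))]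
  rfl

lemma count_le {k r : ℕ} {D : ℝ≥0} (C : ℝ) (hFJ : ∀ (Y : Type) [MeasurableSpace Y]
    (μ : Measure Y) [IsFiniteMeasure μ] (γ : Y → Fin k → ℝ), Measurable γ →
    μ.real {y : Y | ∀ j, |γ y j| < 1} ≤
      C * ∫ α in box k (1 / 2), ‖∫ y, ee (∑ j, α j * γ y j) ∂μ‖)
    {ν : ℕ → Measure ℝ} (hν : Law D ν) (c : Fin r → ℤ) (N : ℕ) :
    ∑ n ∈ Fintype.piFinset (fun _ : Fin r => Finset.Icc 1 N),
      (Measure.pi (fun i => ν (n i))).real
        {t : Fin r → ℝ | ∀ j : Fin k, |∑ i, (c i : ℝ) * ((n i : ℝ) + t i) ^ (j.val + 1)| < 1} ≤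
    C * ∫ α in box k (1 / 2), ∏ i, ‖IM ν N (fun j => (c i : ℝ) * α j)‖ := by
  have hp := hν.prob
  set F := Fintype.piFinset (fun _ : Fin r => Finset.Icc 1 N) with hF
  let γ : (Fin r → ℝ) → Fin k → ℝ := fun y j => ∑ i, (c i : ℝ) * y i ^ (j.val + 1)
  have hγc : Continuous γ := by
    refine continuous_pi fun j => ?_
    fun_prop
  let sh : (Fin r → ℕ) → (Fin r → ℝ) → (Fin r → ℝ) := fun n t i => (n i : ℝ) + t i
  have hshc : ∀ n, Continuous (sh n) := by
    intro n
    refine continuous_pi fun i => ?_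
    fun_prop
  let μ : Measure (Fin r → ℝ) := ∑ n ∈ F, (Measure.pi (fun i => ν (n i))).map (sh n)
  have hfin : ∀ n : Fin r → ℕ, IsFiniteMeasure ((Measure.pi (fun i => ν (n i))).map (sh n)) :=
    fun n => inferInstance
  have hμ : IsFiniteMeasure μ := by
    refine ⟨?_⟩
    simp only [μ, Measure.coe_finset_sum, Finset.sum_apply]
    exact ENNReal.sum_lt_top.2 fun n _ => measure_lt_top _ _
  have h := hFJ (Fin r → ℝ) μ γ hγc.measurable
  have hS : MeasurableSet {y : Fin r → ℝ | ∀ j, |γ y j| < 1} := by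
    have e : {y : Fin r → ℝ | ∀ j, |γ y j| < 1} = ⋂ j, {y | |γ y j| < 1} := by
      ext y
      simp
    rw [e]
    refine MeasurableSet.iInter fun j => ?_
    exact measurableSet_lt (((continuous_apply j).comp hγc).abs.measurable) measurable_const
  have h1 : μ.real {y : Fin r → ℝ | ∀ j, |γ y j| < 1} = ∑ n ∈ F,
      (Measure.pi (fun i => ν (n i))).real
        {t : Fin r → ℝ | ∀ j : Fin k, |∑ i, (c i : ℝ) * ((n i : ℝ) + t i) ^ (j.val + 1)| < 1} := by
    unfold Measure.real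
    simp only [μ, Measure.coe_finset_sum, Finset.sum_apply]
    rw [ENNReal.toReal_sum fun n _ => measure_ne_top _ _]
    refine Finset.sum_congr rfl fun n _ => ?_
    rw [Measure.map_apply (hshc n).measurable hS]
    rfl
  have h2 : ∀ α : Fin k → ℝ, ‖∫ y, ee (∑ j, α j * γ y j) ∂μ‖ =
      ∏ i, ‖IM ν N (fun j => (c i : ℝ) * α j)‖ := by
    intro α
    have hcont : Continuous (fun y : Fin r → ℝ => ee (∑ j, α j * γ y j)) := by
      refine continuous_ee.comp (continuous_finset_sum _ fun j _ => ?_)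
      exact continuous_const.mul ((continuous_apply j).comp hγc)
    have e1 : ∫ y, ee (∑ j, α j * γ y j) ∂μ = ∑ n ∈ F, ∏ i, im ν (n i)
        (fun j => (c i : ℝ) * α j) := by
      simp only [μ]
      rw [integral_finset_sum_measure]
      · refine Finset.sum_congr rfl fun n _ => ?_
        rw [integral_map (hshc n).measurable.aemeasurable hcont.aestronglyMeasurable]
        exact pi_int hν c n α
      · intro n _
        refine Integrable.of_bound hcont.aestronglyMeasurable 1 ?_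
        exact Filter.Eventually.of_forall fun y => (norm_ee _).le
    rw [e1, ← norm_prod]
    congr 1
    unfold IM
    rw [Finset.prod_univ_sum]
  rw [h1] at h
  simp only [h2] at h
  exact h

lemma scale_le {k : ℕ} {g : (Fin k → ℝ) → ℝ} (hg : Continuous g) (hg0 : ∀ x, 0 ≤ g x) {c : ℝ}
    (hc : 1 ≤ |c|) {S : ℝ} (hS : |c| / 2 ≤ S) :
    ∫ α in box k (1 / 2), g (fun j => c * α j) ≤ ∫ β in box k S, g β := by
  have hc0 : c ≠ 0 := by
    rintro rfl
    rw [abs_zero] at hc
    linarith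
  have h1 := Measure.setIntegral_comp_smul (volume : Measure (Fin k → ℝ)) g (box k (1 / 2)) hc0
  have h2 : ∫ α in box k (1 / 2), g (fun j => c * α j) = ∫ α in box k (1 / 2), g (c • α) := rfl
  rw [h2, h1]
  have hsub : c • box k (1 / 2) ⊆ box k S := by
    rintro x ⟨α, hα, rfl⟩
    unfold box at hα ⊢
    rw [Set.mem_Icc, Pi.le_def, Pi.le_def] at hα ⊢
    have h3 : ∀ j, |c * α j| ≤ S := by
      intro j
      rw [abs_mul]
      have h4 : |α j| ≤ 1 / 2 := abs_le.2 ⟨hα.1 j, hα.2 j⟩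
      have h5 := mul_le_mul_of_nonneg_left h4 (abs_nonneg c)
      linarith
    exact ⟨fun j => (abs_le.1 (h3 j)).1, fun j => (abs_le.1 (h3 j)).2⟩
  have hint : IntegrableOn g (box k S) := hg.continuousOn.integrableOn_compact isCompact_Icc
  have h3 : ∫ x in c • box k (1 / 2), g x ≤ ∫ β in box k S, g β :=
    setIntegral_mono_set hint (Filter.Eventually.of_forall hg0) hsub.eventuallyLE
  have h4 : 0 ≤ ∫ x in c • box k (1 / 2), g x := integral_nonneg hg0
  have h5 : |(c ^ Module.finrank ℝ (Fin k → ℝ))⁻¹| ≤ 1 := by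
    rw [abs_inv, abs_pow]
    exact inv_le_one_of_one_le₀ (one_le_pow₀ hc)
  rw [smul_eq_mul]
  calc |(c ^ Module.finrank ℝ (Fin k → ℝ))⁻¹| * ∫ x in c • box k (1 / 2), g x
      ≤ 1 * ∫ x in c • box k (1 / 2), g x := mul_le_mul_of_nonneg_right h5 h4
    _ ≤ _ := by rw [one_mul]; exact h3

lemma interp {a V : ℝ} (ha : 0 ≤ a) (hV : 0 < V) {r w : ℕ} (h2 : 2 ≤ r) (hr : r ≤ w) :
    a ^ r ≤ V ^ (r - 2) * a ^ 2 + a ^ w / V ^ (w - r) := by
  rcases le_total a V with h | h
  · have h1 : a ^ r = a ^ (r - 2) * a ^ 2 := by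
      rw [← pow_add]
      congr 1
      omega
    have h3 : a ^ (r - 2) * a ^ 2 ≤ V ^ (r - 2) * a ^ 2 :=
      mul_le_mul_of_nonneg_right (pow_le_pow_left₀ ha h _) (by positivity)
    have h4 : 0 ≤ a ^ w / V ^ (w - r) := by positivity
    linarith
  · have h1 : a ^ r ≤ a ^ w / V ^ (w - r) := by
      rw [le_div_iff₀ (by positivity)]
      calc a ^ r * V ^ (w - r) ≤ a ^ r * a ^ (w - r) :=
            mul_le_mul_of_nonneg_left (pow_le_pow_left₀ hV.le h _) (by positivity)
        _ = a ^ w := by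
            rw [← pow_add]
            congr 1
            omega
    have h4 : 0 ≤ V ^ (r - 2) * a ^ 2 := by positivity
    linarith

lemma prod_le_sum_pow {r : ℕ} (hr : 0 < r) (a : Fin r → ℝ) (ha : ∀ i, 0 ≤ a i) :
    ∏ i, a i ≤ ∑ i, a i ^ r := by
  have hne : (Finset.univ : Finset (Fin r)).Nonempty := ⟨⟨0, hr⟩, Finset.mem_univ _⟩
  obtain ⟨i0, -, hi0⟩ := Finset.exists_max_image Finset.univ a hne
  calc ∏ i, a i ≤ ∏ _i : Fin r, a i0 := Finset.prod_le_prod (fun i _ => ha i)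
        (fun i _ => hi0 i (Finset.mem_univ _))
    _ = a i0 ^ r := by rw [Finset.prod_const, Finset.card_univ, Fintype.card_fin]
    _ ≤ ∑ i, a i ^ r := Finset.single_le_sum (f := fun i => a i ^ r)
        (fun i _ => pow_nonneg (ha i) _) (Finset.mem_univ i0)

/-- **Package WT.** -/
theorem t_WT : T_WT := by
  intro hFJ2 hG hL2 k r D c hk hr hrk hc
  obtain ⟨C0, hC0, hFJ⟩ := hFJ2 k
  set w := k * (k + 1) / 2 with hw
  have hw2 : 2 * w = k * (k + 1) := Nat.mul_div_cancel' (Nat.even_mul_succ_self k).two_dvd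
  have hw2R : (w : ℝ) = (k : ℝ) * (k + 1) / 2 := by
    have : (2 : ℝ) * w = k * (k + 1) := by exact_mod_cast hw2
    linarith
  have hcR : ∀ i, (1 : ℝ) ≤ |(c i : ℝ)| := by
    intro i
    have : (1 : ℤ) ≤ |c i| := Int.one_le_abs (hc i)
    exact_mod_cast this
  set S : ℝ := ∑ i, |(c i : ℝ)| with hSdef
  have hSi : ∀ i, |(c i : ℝ)| ≤ S := fun i =>
    Finset.single_le_sum (f := fun i => |(c i : ℝ)|) (fun i _ => abs_nonneg _) (Finset.mem_univ i)
  have hS : 0 < S := by
    have h1 := hcR ⟨0, by omega⟩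
    have h2 := hSi ⟨0, by omega⟩
    linarith
  obtain ⟨C1, hC1, hL⟩ := hL2 k S D hk hS
  obtain ⟨C2, hC2, hGG⟩ := hG k S D w hk hS
  have hrR : (2 : ℝ) ≤ r := by exact_mod_cast hr
  refine ⟨C0 * (r * (C1 + 2 * C2)), 1 / (4 * r), by positivity, by positivity,
    fun ν hν N hN => ?_⟩
  refine (count_le C0 hFJ hν c N).trans ?_
  rw [mul_assoc]
  refine mul_le_mul_of_nonneg_left ?_ hC0
  have hIc : Continuous (fun α : Fin k → ℝ => IM ν N α) := continuous_IM hν N
  have hNR : (1 : ℝ) ≤ N := by exact_mod_cast hN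
  have hN0 : (0 : ℝ) < N := by linarith
  -- the moment of order `r`
  have hmom : ∫ β in box k S, ‖IM ν N β‖ ^ r ≤ (C1 + 2 * C2) * (N : ℝ) ^ ((r : ℝ) / 2 - 1 / (4 * r)) := by
    set d : ℝ := 1 / (4 * r) with hd
    have hdpos : 0 < d := by positivity
    have hdr : d * r = 1 / 4 := by
      rw [hd]
      field_simp
    set V : ℝ := (N : ℝ) ^ (1 / 2 + d) with hV
    have hVpos : 0 < V := Real.rpow_pos_of_pos hN0 _
    have i1 : IntegrableOn (fun β : Fin k → ℝ => ‖IM ν N β‖ ^ r) (box k S) :=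
      (hIc.norm.pow r).continuousOn.integrableOn_compact isCompact_Icc
    have i2 : IntegrableOn (fun β : Fin k → ℝ => ‖IM ν N β‖ ^ 2) (box k S) :=
      (hIc.norm.pow 2).continuousOn.integrableOn_compact isCompact_Icc
    have i3 : IntegrableOn (fun β : Fin k → ℝ => ‖IM ν N β‖ ^ (2 * w)) (box k S) :=
      (hIc.norm.pow (2 * w)).continuousOn.integrableOn_compact isCompact_Icc
    have hrw : r ≤ 2 * w := by omega
    have e1 : ∫ β in box k S, ‖IM ν N β‖ ^ r ≤
        ∫ β in box k S, (V ^ (r - 2) * ‖IM ν N β‖ ^ 2 + ‖IM ν N β‖ ^ (2 * w) / V ^ (2 * w - r)) :=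
      integral_mono i1 ((i2.const_mul _).add (i3.div_const _))
        (fun β => interp (norm_nonneg _) hVpos hr hrw)
    have e2 : ∫ β in box k S,
        (V ^ (r - 2) * ‖IM ν N β‖ ^ 2 + ‖IM ν N β‖ ^ (2 * w) / V ^ (2 * w - r)) =
        V ^ (r - 2) * (∫ β in box k S, ‖IM ν N β‖ ^ 2) +
        (∫ β in box k S, ‖IM ν N β‖ ^ (2 * w)) / V ^ (2 * w - r) := by
      rw [integral_add (i2.const_mul _) (i3.div_const _), integral_const_mul, integral_div]
    have e3 : V ^ (r - 2) * ∫ β in box k S, ‖IM ν N β‖ ^ 2 ≤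
        C1 * (N : ℝ) ^ ((r : ℝ) / 2 - d) := by
      have a1 := mul_le_mul_of_nonneg_left ((hL ν hν).2 N hN) (by positivity : 0 ≤ V ^ (r - 2))
      refine a1.trans ?_
      have a2 : V ^ (r - 2) * (N : ℝ) ^ (1 / 2 : ℝ) =
          (N : ℝ) ^ ((1 / 2 + d) * ((r : ℝ) - 2) + 1 / 2) := by
        rw [hV, ← Real.rpow_natCast, ← Real.rpow_mul hN0.le, ← Real.rpow_add hN0]
        rw [Nat.cast_sub hr]
        norm_num
      have a3 : (N : ℝ) ^ ((1 / 2 + d) * ((r : ℝ) - 2) + 1 / 2) ≤ (N : ℝ) ^ ((r : ℝ) / 2 - d) := by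
        refine Real.rpow_le_rpow_of_exponent_le hNR ?_
        nlinarith
      calc V ^ (r - 2) * (C1 * (N : ℝ) ^ (1 / 2 : ℝ)) = C1 * (V ^ (r - 2) * (N : ℝ) ^ (1 / 2 : ℝ)) := by
            ring
        _ ≤ _ := by rw [a2]; exact mul_le_mul_of_nonneg_left a3 hC1
    have e4 : (∫ β in box k S, ‖IM ν N β‖ ^ (2 * w)) / V ^ (2 * w - r) ≤
        2 * C2 * (N : ℝ) ^ ((r : ℝ) / 2 - d) := by
      have a1 := hGG ν hν N hN
      have a2 : (N : ℝ) ^ (2 * (w : ℝ) - k * (k + 1) / 2) = (N : ℝ) ^ w := by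
        rw [← Real.rpow_natCast]
        congr 1
        rw [hw2R]
        ring
      rw [a2] at a1
      rw [div_le_iff₀ (by positivity)]
      refine a1.trans ?_
      have a3 : (N : ℝ) ^ w ≤ (N : ℝ) ^ ((r : ℝ) / 2 - d) * V ^ (2 * w - r) := by
        rw [hV, ← Real.rpow_natCast, ← Real.rpow_natCast, ← Real.rpow_mul hN0.le,
          ← Real.rpow_add hN0]
        refine Real.rpow_le_rpow_of_exponent_le hNR ?_
        rw [Nat.cast_sub hrw]
        push_cast
        have a4 : (r : ℝ) + 1 ≤ 2 * w := by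
          have : r + 1 ≤ 2 * w := by omega
          exact_mod_cast this
        nlinarith
      have a5 := mul_le_mul_of_nonneg_left a3 hC2
      nlinarith
    calc ∫ β in box k S, ‖IM ν N β‖ ^ r ≤ _ := e1
      _ = _ := e2
      _ ≤ C1 * (N : ℝ) ^ ((r : ℝ) / 2 - d) + 2 * C2 * (N : ℝ) ^ ((r : ℝ) / 2 - d) :=
          add_le_add e3 e4
      _ = _ := by ring
  -- the product
  have hci : ∀ i, Continuous (fun α : Fin k → ℝ => IM ν N (fun j => (c i : ℝ) * α j)) := by
    intro i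
    refine hIc.comp (continuous_pi fun j => ?_)
    fun_prop
  have j1 : IntegrableOn (fun α : Fin k → ℝ => ∏ i, ‖IM ν N (fun j => (c i : ℝ) * α j)‖)
      (box k (1 / 2)) :=
    (continuous_finsetProd _ fun i _ => (hci i).norm).continuousOn.integrableOn_compact isCompact_Icc
  have j2 : ∀ i, IntegrableOn (fun α : Fin k → ℝ => ‖IM ν N (fun j => (c i : ℝ) * α j)‖ ^ r)
      (box k (1 / 2)) := fun i =>
    ((hci i).norm.pow r).continuousOn.integrableOn_compact isCompact_Icc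
  have s1 : ∫ α in box k (1 / 2), ∏ i, ‖IM ν N (fun j => (c i : ℝ) * α j)‖ ≤
      ∫ α in box k (1 / 2), ∑ i, ‖IM ν N (fun j => (c i : ℝ) * α j)‖ ^ r :=
    integral_mono j1 (integrable_finsetSum _ fun i _ => j2 i)
      (fun α => prod_le_sum_pow (by omega) _ fun i => norm_nonneg _)
  rw [integral_finsetSum _ fun i _ => j2 i] at s1
  have s2 : ∀ i, ∫ α in box k (1 / 2), ‖IM ν N (fun j => (c i : ℝ) * α j)‖ ^ r ≤
      (C1 + 2 * C2) * (N : ℝ) ^ ((r : ℝ) / 2 - 1 / (4 * r)) := by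
    intro i
    refine le_trans ?_ hmom
    exact scale_le (g := fun β => ‖IM ν N β‖ ^ r) (hIc.norm.pow r) (fun x => by positivity) (hcR i)
      (by have := hSi i; have := hcR i; linarith)
  refine s1.trans ((Finset.sum_le_sum fun i _ => s2 i).trans (le_of_eq ?_))
  rw [Finset.sum_const, Finset.card_univ, Fintype.card_fin, nsmul_eq_mul]
  ring

end Pool.Agent.U103.VE
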